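import Mathlib

namespace Pool.Agent.Results.MP_e3277b_lc.NotEquivalent

/-- Unimodal formulas. -/
inductive Fm : Type
  | var (p : ℕ) : Fm
  | bot : Fm
  | imp (a b : Fm) : Fm
  | box (a : Fm) : Fm
  deriving DecidableEq

namespace Fm

/-- The set of variables of a formula. -/
def sig : Fm → Set ℕ
  | var p => {p}
  | bot => ∅
  | imp a b => sig a ∪ sig b
  | box a => sig a

/-- Uniform substitution. -/
def subst (s : ℕ → Fm) : Fm → Fm
  | var p => s p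
  | bot => bot
  | imp a b => imp (subst s a) (subst s b)
  | box a => box (subst s a)

/-- Classical truth value, variables and boxed formulas being treated as atoms. -/
def eval (v : ℕ → Prop) (w : Fm → Prop) : Fm → Prop
  | var p => v p
  | bot => False
  | imp a b => eval v w a → eval v w b
  | box a => w a

end Fm

open Fm

/-- Kripke truth. -/
def Holds {W : Type} (R : W → W → Prop) (V : ℕ → Set W) : Fm → W → Prop
  | .var p, x => x ∈ V p
  | .bot, _ => False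
  | .imp a b, x => Holds R V a x → Holds R V b x
  | .box a, x => ∀ y, R x y → Holds R V a y

/-- The frame `(W, R)` validates every formula of `L`. -/
def FrameFor (L : Set Fm) {W : Type} (R : W → W → Prop) : Prop :=
  ∀ a ∈ L, ∀ V x, Holds R V a x

/-- Normal modal logics. -/
structure IsNormal (L : Set Fm) : Prop where
  taut : ∀ a, (∀ v w, eval v w a) → a ∈ L
  k : imp (box (imp (var 0) (var 1))) (imp (box (var 0)) (box (var 1))) ∈ L
  mp : ∀ a b, imp a b ∈ L → a ∈ L → b ∈ L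
  nec : ∀ a, a ∈ L → box a ∈ L
  sub : ∀ a s, a ∈ L → subst s a ∈ L

/-- `c` is a Craig interpolant of `a, b` in `L`. -/
def Interpolant (L : Set Fm) (a b c : Fm) : Prop :=
  sig c ⊆ sig a ∩ sig b ∧ imp a c ∈ L ∧ imp c b ∈ L

/-- `Z` is a `σ`-bisimulation between two models. -/
def Bisim (σ : Set ℕ) {W₁ W₂ : Type} (R₁ : W₁ → W₁ → Prop) (V₁ : ℕ → Set W₁)
    (R₂ : W₂ → W₂ → Prop) (V₂ : ℕ → Set W₂) (Z : W₁ → W₂ → Prop) : Prop :=
  ∀ x y, Z x y → (∀ p ∈ σ, x ∈ V₁ p ↔ y ∈ V₂ p) ∧ (∀ x', R₁ x x' → ∃ y', R₂ y y' ∧ Z x' y') ∧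
    ∀ y', R₂ y y' → ∃ x', R₁ x x' ∧ Z x' y'

/-- The Kripke criterion for the non-existence of interpolants. -/
def KripkeCriterion (L : Set Fm) : Prop :=
  ∀ a b, (¬ ∃ c, Interpolant L a b c) ↔
    ∃ (W₁ W₂ : Type) (R₁ : W₁ → W₁ → Prop) (R₂ : W₂ → W₂ → Prop) (V₁ : ℕ → Set W₁)
      (V₂ : ℕ → Set W₂) (Z : W₁ → W₂ → Prop) (x₁ : W₁) (x₂ : W₂),
      FrameFor L R₁ ∧ FrameFor L R₂ ∧ Bisim (sig a ∩ sig b) R₁ V₁ R₂ V₂ Z ∧ Z x₁ x₂ ∧
        Holds R₁ V₁ a x₁ ∧ ¬ Holds R₂ V₂ b x₂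

/-- `Γ` is `L`-consistent: no finite list of its members implies `⊥` in `L`. -/
def Consistent (L : Set Fm) (Γ : Set Fm) : Prop :=
  ∀ l : List Fm, (∀ a ∈ l, a ∈ Γ) → l.foldr imp bot ∉ L

/-- Strong Kripke completeness. -/
def StronglyComplete (L : Set Fm) : Prop :=
  ∀ Γ, Consistent L Γ → ∃ (W : Type) (R : W → W → Prop) (V : ℕ → Set W) (x : W),
    FrameFor L R ∧ ∀ a ∈ Γ, Holds R V a x

structure PM : Type 1 where
  W : Type
  R : W → W → Prop
  tr : ∀ x y z, R x y → R y z → R x z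
  wf : WellFounded (fun x y => R y x)
  V : ℕ → Set W
  x : W

def PM.sat (m : PM) (a : Fm) : Prop := Holds m.R m.V a m.x

def PM.at (m : PM) (y : m.W) : PM := { m with x := y }

def Lob : Set Fm := {a | ∀ m : PM, m.sat a}

lemma holds_eval {W : Type} (R : W → W → Prop) (V : ℕ → Set W) (x : W) (a : Fm) :
    Holds R V a x ↔ eval (fun p => x ∈ V p) (fun b => Holds R V (box b) x) a := by
  induction a with
  | var p => rfl
  | bot => rfl
  | imp a b iha ihb => exact imp_congr iha ihb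
  | box a _ => rfl

lemma holds_subst {W : Type} (R : W → W → Prop) (V : ℕ → Set W) (s : ℕ → Fm) (a : Fm) (x : W) :
    Holds R V (subst s a) x ↔ Holds R (fun p => {y | Holds R V (s p) y}) a x := by
  induction a generalizing x with
  | var p => rfl
  | bot => rfl
  | imp a b iha ihb => exact imp_congr (iha x) (ihb x)
  | box a ih => exact forall_congr' fun y => imp_congr_right fun _ => ih y

lemma normal_Lob : IsNormal Lob where
  taut a h m := (holds_eval _ _ _ a).2 (h _ _)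
  k _ := fun h1 h2 y r => h1 y r (h2 y r)
  mp _ _ h1 h2 m := h1 m (h2 m)
  nec _ h m := fun y _ => h (m.at y)
  sub a s h m := (holds_subst _ _ s a _).2
    (h { m with V := fun p => {y | Holds m.R m.V (s p) y} })

lemma bisim_inv {σ : Set ℕ} {W₁ W₂ : Type} {R₁ : W₁ → W₁ → Prop} {V₁ : ℕ → Set W₁}
    {R₂ : W₂ → W₂ → Prop} {V₂ : ℕ → Set W₂} {Z : W₁ → W₂ → Prop} (h : Bisim σ R₁ V₁ R₂ V₂ Z)
    (c : Fm) (hc : sig c ⊆ σ) : ∀ x y, Z x y → (Holds R₁ V₁ c x ↔ Holds R₂ V₂ c y) := by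
  induction c with
  | var p => exact fun x y r => (h x y r).1 p (hc rfl)
  | bot => exact fun _ _ _ => Iff.rfl
  | imp a b iha ihb =>
    exact fun x y r => imp_congr (iha (fun p hp => hc (Or.inl hp)) x y r)
      (ihb (fun p hp => hc (Or.inr hp)) x y r)
  | box a ih =>
    intro x y r
    constructor
    · intro hx y' r'
      obtain ⟨x', r1, r2⟩ := (h x y r).2.2 y' r'
      exact (ih hc x' y' r2).1 (hx x' r1)
    · intro hy x' r'
      obtain ⟨y', r1, r2⟩ := (h x y r).2.1 x' r'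
      exact (ih hc x' y' r2).2 (hy y' r1)

def Sep (σ : Set ℕ) (A B : PM → Prop) : Prop :=
  ∃ c, sig c ⊆ σ ∧ (∀ m, A m → m.sat c) ∧ ∀ m, B m → ¬ m.sat c

variable {σ : Set ℕ}

lemma Sep.symm {A B : PM → Prop} (h : Sep σ A B) : Sep σ B A := by
  obtain ⟨c, h1, h2, h3⟩ := h
  exact ⟨imp c bot, by simpa [sig] using h1, fun m hm => h3 m hm, fun m hm h => h (h2 m hm)⟩

lemma Sep.union {ι : Type} (s : Finset ι) (A : ι → PM → Prop) (B : PM → Prop)
    (h : ∀ i ∈ s, Sep σ (A i) B) : Sep σ (fun m => ∃ i ∈ s, A i m) B := by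
  classical
  induction s using Finset.induction_on with
  | empty => exact ⟨bot, by simp [sig], by simp, fun m _ h => h⟩
  | insert i s _ ih =>
    obtain ⟨c, h1, h2, h3⟩ := ih fun j hj => h j (Finset.mem_insert_of_mem hj)
    obtain ⟨d, k1, k2, k3⟩ := h i (Finset.mem_insert_self _ _)
    refine ⟨imp (imp c bot) d, by simpa [sig] using ⟨h1, k1⟩, ?_, fun m hm hh => ?_⟩
    · rintro m ⟨j, hj, hm⟩ hn
      rcases Finset.mem_insert.1 hj with rfl | hj
      · exact k2 m hm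
      · exact (hn (h2 m ⟨j, hj, hm⟩)).elim
    · exact k3 m hm (hh (h3 m hm))

lemma Sep.mono {A B A' B' : PM → Prop} (h : Sep σ A B) (hA : ∀ m, A' m → A m)
    (hB : ∀ m, B' m → B m) : Sep σ A' B' := by
  obtain ⟨c, h1, h2, h3⟩ := h
  exact ⟨c, h1, fun m hm => h2 m (hA m hm), fun m hm => h3 m (hB m hm)⟩

def Sat (Φ T : Finset Fm) (m : PM) : Prop := ∀ a ∈ Φ, (m.sat a ↔ a ∈ T)

lemma ext1 (Φ : Finset Fm) {A B : PM → Prop} (h : ¬ Sep σ A B) :
    ∃ T ⊆ Φ, ¬ Sep σ (fun m => A m ∧ Sat Φ T m) B := by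
  classical
  by_contra hh
  push Not at hh
  refine h ((Sep.union Φ.powerset (fun T m => A m ∧ Sat Φ T m) B
    fun T hT => hh T (Finset.mem_powerset.1 hT)).mono (fun m hm => ?_) fun _ h => h)
  exact ⟨Φ.filter m.sat, Finset.mem_powerset.2 (Finset.filter_subset _ _), hm,
    fun a ha => by simp [ha]⟩

lemma ext2 (Φ Ψ : Finset Fm) {A B : PM → Prop} (h : ¬ Sep σ A B) :
    ∃ S ⊆ Φ, ∃ T ⊆ Ψ, ¬ Sep σ (fun m => A m ∧ Sat Φ S m) (fun m => B m ∧ Sat Ψ T m) := by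
  obtain ⟨S, hS, h1⟩ := ext1 Φ h
  obtain ⟨T, hT, h2⟩ := ext1 Ψ (fun hh => h1 (Sep.symm hh))
  exact ⟨S, hS, T, hT, fun hh => h2 hh.symm⟩

lemma real {A B : PM → Prop} (h : ¬ Sep σ A B) : ∃ m, A m := by
  by_contra hh
  exact h ⟨bot, by simp [sig], fun m hm => (hh ⟨m, hm⟩).elim, fun m _ h => h⟩

def Closed (Φ : Finset Fm) : Prop :=
  (∀ a b, imp a b ∈ Φ → a ∈ Φ ∧ b ∈ Φ) ∧ ∀ a, box a ∈ Φ → a ∈ Φ

def Up (T S : Finset Fm) : Prop := ∀ c, box c ∈ T → c ∈ S ∧ box c ∈ S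

lemma step {Φ Ψ T U : Finset Fm} (hΦ : Closed Φ) (hΨ : Closed Ψ) (hT : T ⊆ Φ) (hU : U ⊆ Ψ)
    (h : ¬ Sep σ (Sat Φ T) (Sat Ψ U)) {a : Fm} (ha : box a ∈ Φ) (ha' : box a ∉ T) :
    ∃ S ⊆ Φ, ∃ S' ⊆ Ψ, ¬ Sep σ (Sat Φ S) (Sat Ψ S') ∧ Up T S ∧ Up U S' ∧ box a ∈ S ∧ a ∉ S := by
  have key : ¬ Sep σ (fun m => (∀ c, box c ∈ T → m.sat c ∧ m.sat (box c)) ∧ m.sat (box a) ∧
      ¬ m.sat a) (fun m => ∀ c, box c ∈ U → m.sat c ∧ m.sat (box c)) := by
    rintro ⟨c, h1, h2, h3⟩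
    refine h ⟨imp (box (imp c bot)) bot, by simpa [sig] using h1, fun m hm hh => ?_,
      fun m hm hh => hh fun y r hy => ?_⟩
    · have hn : ¬ m.sat (box a) := fun hs => ha' ((hm _ ha).1 hs)
      obtain ⟨y, hy⟩ : ∃ y, m.R m.x y ∧ ¬ Holds m.R m.V a y := by
        by_contra k
        exact hn fun y r => by_contra fun k' => k ⟨y, r, k'⟩
      obtain ⟨z, hz, hmin⟩ := m.wf.has_min {y | m.R m.x y ∧ ¬ Holds m.R m.V a y} ⟨y, hy⟩
      refine hh z hz.1 (h2 (m.at z) ⟨fun d hd => ?_, fun u r => ?_, hz.2⟩)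
      · have := (hm _ (hT hd)).2 hd
        exact ⟨this z hz.1, fun u r => this u (m.tr _ _ _ hz.1 r)⟩
      · by_contra k
        exact hmin u ⟨m.tr _ _ _ hz.1 r, k⟩ r
    · refine h3 (m.at y) (fun d hd => ?_) hy
      have := (hm _ (hU hd)).2 hd
      exact ⟨this y r, fun u r' => this u (m.tr _ _ _ r r')⟩
  obtain ⟨S, hS, S', hS', k⟩ := ext2 Φ Ψ key
  obtain ⟨m, hm, hm'⟩ := real k
  obtain ⟨n, hn, hn'⟩ := real (fun hh => k (Sep.symm hh))
  refine ⟨S, hS, S', hS', fun hh => k (hh.mono (fun _ h => h.2) fun _ h => h.2),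
    fun c hc => ?_, fun c hc => ?_, (hm' _ ha).1 hm.2.1, fun hh => hm.2.2 ((hm' _ (hΦ.2 _ ha)).2 hh)⟩
  · exact ⟨(hm' _ (hΦ.2 _ (hT hc))).1 (hm.1 c hc).1, (hm' _ (hT hc)).1 (hm.1 c hc).2⟩
  · exact ⟨(hn' _ (hΨ.2 _ (hU hc))).1 (hn c hc).1, (hn' _ (hU hc)).1 (hn c hc).2⟩

lemma truth {W : Type} (R : W → W → Prop) (V : ℕ → Set W) {Φ : Finset Fm} (hΦ : Closed Φ)
    (t : W → Finset Fm) (h1 : ∀ p, ∃ m, Sat Φ (t p) m)
    (h2 : ∀ n p, var n ∈ Φ → (p ∈ V n ↔ var n ∈ t p))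
    (h3 : ∀ p q c, R p q → box c ∈ t p → c ∈ t q)
    (h4 : ∀ p c, box c ∈ Φ → box c ∉ t p → ∃ q, R p q ∧ c ∉ t q) (a : Fm) :
    a ∈ Φ → ∀ p, (Holds R V a p ↔ a ∈ t p) := by
  induction a with
  | var n => exact fun h p => h2 n p h
  | bot =>
    intro h p
    obtain ⟨m, hm⟩ := h1 p
    exact hm _ h
  | imp a b iha ihb =>
    intro h p
    obtain ⟨m, hm⟩ := h1 p
    obtain ⟨ha, hb⟩ := hΦ.1 a b h
    rw [← hm _ h]
    exact imp_congr ((iha ha p).trans (hm _ ha).symm) ((ihb hb p).trans (hm _ hb).symm)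
  | box a ih =>
    intro h p
    refine ⟨fun hh => ?_, fun hh q r => (ih (hΦ.2 _ h) q).2 (h3 p q a r hh)⟩
    by_contra k
    obtain ⟨q, r, hq⟩ := h4 p a h k
    exact hq ((ih (hΦ.2 _ h) q).1 (hh q r))

def sf : Fm → Finset Fm
  | .var p => {var p}
  | .bot => {bot}
  | .imp a b => insert (imp a b) (sf a ∪ sf b)
  | .box a => insert (box a) (sf a)

lemma self_sf (a : Fm) : a ∈ sf a := by cases a <;> simp [sf]

lemma closed_sf (a : Fm) : Closed (sf a) := by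
  induction a with
  | var p => exact ⟨by simp [sf], by simp [sf]⟩
  | bot => exact ⟨by simp [sf], by simp [sf]⟩
  | imp a b iha ihb =>
    refine ⟨fun c d h => ?_, fun c h => ?_⟩
    · simp only [sf, Finset.mem_insert, Finset.mem_union, imp.injEq] at h ⊢
      rcases h with ⟨rfl, rfl⟩ | h | h
      · exact ⟨Or.inr (Or.inl (self_sf _)), Or.inr (Or.inr (self_sf _))⟩
      · exact ⟨Or.inr (Or.inl (iha.1 c d h).1), Or.inr (Or.inl (iha.1 c d h).2)⟩
      · exact ⟨Or.inr (Or.inr (ihb.1 c d h).1), Or.inr (Or.inr (ihb.1 c d h).2)⟩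
    · simp only [sf, Finset.mem_insert, Finset.mem_union, reduceCtorEq, false_or] at h ⊢
      exact Or.inr (h.imp (iha.2 c) (ihb.2 c))
  | box a ih =>
    refine ⟨fun c d h => ?_, fun c h => ?_⟩
    · simp only [sf, Finset.mem_insert, reduceCtorEq, false_or] at h ⊢
      exact ⟨Or.inr (ih.1 c d h).1, Or.inr (ih.1 c d h).2⟩
    · simp only [sf, Finset.mem_insert, box.injEq] at h ⊢
      rcases h with rfl | h
      · exact Or.inr (self_sf _)
      · exact Or.inr (ih.2 c h)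

lemma var_sf (n : ℕ) (a : Fm) (h : var n ∈ sf a) : n ∈ sig a := by
  induction a with
  | var p => simpa [sf, sig] using h
  | bot => simp [sf] at h
  | imp a b iha ihb =>
    simp only [sf, Finset.mem_insert, Finset.mem_union, reduceCtorEq, false_or] at h
    exact h.imp iha ihb
  | box a ih =>
    simp only [sf, Finset.mem_insert, reduceCtorEq, false_or] at h
    exact ih h

lemma model (a b : Fm) (h : ¬ ∃ c, Interpolant Lob a b c) : ∃ m : PM, m.sat a ∧ ¬ m.sat b := by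
  have h0 : ¬ Sep (sig a ∩ sig b) (fun m => m.sat a) (fun m => ¬ m.sat b) := by
    rintro ⟨c, h1, h2, h3⟩
    exact h ⟨c, h1, h2, fun m hc => by_contra fun k => h3 m k hc⟩
  let W := {p : Finset Fm × Finset Fm //
    p.1 ⊆ sf a ∧ p.2 ⊆ sf b ∧ ¬ Sep (sig a ∩ sig b) (Sat (sf a) p.1) (Sat (sf b) p.2)}
  have : Finite W := by
    refine Set.Finite.subset (Finset.finite_toSet ((sf a).powerset ×ˢ (sf b).powerset)) ?_
    rintro p ⟨h1, h2, -⟩
    simp [h1, h2]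
  let R : W → W → Prop := fun p q => Up p.1.1 q.1.1 ∧ Up p.1.2 q.1.2 ∧
    ((∃ c, box c ∈ q.1.1 ∧ box c ∉ p.1.1) ∨ ∃ c, box c ∈ q.1.2 ∧ box c ∉ p.1.2)
  have tr : ∀ x y z, R x y → R y z → R x z := by
    rintro x y z ⟨h1, h2, h3⟩ ⟨k1, k2, -⟩
    refine ⟨fun c hc => k1 c (h1 c hc).2, fun c hc => k2 c (h2 c hc).2, ?_⟩
    rcases h3 with ⟨c, hc, hc'⟩ | ⟨c, hc, hc'⟩
    · exact Or.inl ⟨c, (k1 c hc).2, hc'⟩
    · exact Or.inr ⟨c, (k2 c hc).2, hc'⟩
  have wf : WellFounded (fun x y => R y x) := by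
    have : IsTrans W (fun x y => R y x) := ⟨fun x y z h1 h2 => tr _ _ _ h2 h1⟩
    have : Std.Irrefl (fun x y : W => R y x) := ⟨by
      rintro x ⟨-, -, ⟨c, h1, h2⟩ | ⟨c, h1, h2⟩⟩ <;> exact h2 h1⟩
    exact Finite.wellFounded_of_trans_of_irrefl _
  let V : ℕ → Set W := fun n => {p | var n ∈ p.1.1 ∨ var n ∈ p.1.2}
  have hv : ∀ (n : ℕ) (p : W), var n ∈ sf a → var n ∈ sf b → (var n ∈ p.1.1 ↔ var n ∈ p.1.2) := by
    intro n p ha hb
    have hs : sig (var n) ⊆ sig a ∩ sig b := by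
      intro k hk
      have e : k = n := hk
      rw [e]
      exact ⟨var_sf n a ha, var_sf n b hb⟩
    constructor
    · intro h1
      by_contra h2
      exact p.2.2.2 ⟨var n, hs, fun m hm => (hm _ ha).2 h1, fun m hm k => h2 ((hm _ hb).1 k)⟩
    · intro h1
      by_contra h2
      exact p.2.2.2 (Sep.symm
        ⟨var n, hs, fun m hm => (hm _ hb).2 h1, fun m hm k => h2 ((hm _ ha).1 k)⟩)
  have t1 := truth R V (closed_sf a) (fun p => p.1.1) (fun p => real p.2.2.2)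
    (fun n p hn => ⟨fun h => h.elim id fun h => (hv n p hn (p.2.2.1 h)).2 h, Or.inl⟩)
    (fun p q c r hc => (r.1 c hc).1) (fun p c hc hc' => by
      obtain ⟨S, hS, S', hS', k1, k2, k3, k4, k5⟩ :=
        step (closed_sf a) (closed_sf b) p.2.1 p.2.2.1 p.2.2.2 hc hc'
      exact ⟨⟨(S, S'), hS, hS', k1⟩, ⟨k2, k3, Or.inl ⟨c, k4, hc'⟩⟩, k5⟩) a (self_sf a)
  have t2 := truth R V (closed_sf b) (fun p => p.1.2)
    (fun p => real (fun hh => p.2.2.2 (Sep.symm hh)))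
    (fun n p hn => ⟨fun h => h.elim (fun h => (hv n p (p.2.1 h) hn).1 h) id, Or.inr⟩)
    (fun p q c r hc => (r.2.1 c hc).1) (fun p c hc hc' => by
      obtain ⟨S, hS, S', hS', k1, k2, k3, k4, k5⟩ :=
        step (closed_sf b) (closed_sf a) p.2.2.1 p.2.1 (fun hh => p.2.2.2 (Sep.symm hh)) hc hc'
      exact ⟨⟨(S', S), hS', hS, fun hh => k1 (Sep.symm hh)⟩, ⟨k3, k2, Or.inr ⟨c, k4, hc'⟩⟩, k5⟩)
    b (self_sf b)
  obtain ⟨S, hS, T, hT, k⟩ := ext2 (sf a) (sf b) h0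
  obtain ⟨m, hm, hm'⟩ := real k
  obtain ⟨n, hn, hn'⟩ := real (fun hh => k (Sep.symm hh))
  let p : W := ⟨(S, T), hS, hT, fun hh => k (hh.mono (fun _ h => h.2) fun _ h => h.2)⟩
  exact ⟨⟨W, R, tr, wf, V, p⟩, (t1 p).2 ((hm' _ (self_sf a)).1 hm),
    fun hh => hn ((hn' _ (self_sf b)).2 ((t2 p).1 hh))⟩

lemma criterion : KripkeCriterion Lob := by
  intro a b
  constructor
  · intro h
    obtain ⟨m, h1, h2⟩ := model a b h
    have hf : FrameFor Lob m.R := fun c hc V x => hc { m with V := V, x := x }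
    exact ⟨m.W, m.W, m.R, m.R, m.V, m.V, Eq, m.x, m.x, hf, hf, by
      rintro x _ rfl
      exact ⟨fun _ _ => Iff.rfl, fun x' r => ⟨x', r, rfl⟩, fun x' r => ⟨x', r, rfl⟩⟩, rfl, h1, h2⟩
  · rintro ⟨W₁, W₂, R₁, R₂, V₁, V₂, Z, x₁, x₂, f1, f2, hZ, r, h1, h2⟩ ⟨c, k1, k2, k3⟩
    exact h2 (f2 _ k3 V₂ x₂ ((bisim_inv hZ c k1 _ _ r).1 (f1 _ k2 V₁ x₁ h1)))

def dia (a : Fm) : Fm := imp (box (imp a bot)) bot

def gam : ℕ → Fm
  | 0 => dia (var 0)
  | n + 1 => box (imp (var n) (dia (var (n + 1))))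

lemma holds_dia {W : Type} (R : W → W → Prop) (V : ℕ → Set W) (a : Fm) (x : W) :
    Holds R V (dia a) x ↔ ∃ y, R x y ∧ Holds R V a y := by
  simp [dia, Holds]

lemma not_strong : ¬ StronglyComplete Lob := by
  intro h
  obtain ⟨W, R, V, x, hf, hx⟩ := h (Set.range gam) (by
    intro l hl hG
    obtain ⟨N, hN⟩ : ∃ N, ∀ a ∈ l, ∃ n < N, gam n = a := by
      clear hG
      induction l with
      | nil => exact ⟨0, by simp⟩
      | cons a l ih =>
        obtain ⟨N, hN⟩ := ih fun b hb => hl b (List.mem_cons_of_mem _ hb)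
        obtain ⟨n, hn⟩ := hl a List.mem_cons_self
        refine ⟨max N (n + 1), fun b hb => ?_⟩
        rcases List.mem_cons.1 hb with rfl | hb
        · exact ⟨n, by omega, hn⟩
        · obtain ⟨k, hk, e⟩ := hN b hb
          exact ⟨k, by omega, e⟩
    let m : PM := ⟨ℕ, fun x y => y < x, fun x y z h1 h2 => lt_trans h2 h1, wellFounded_lt,
      fun n => {y | y + n = N}, N + 1⟩
    have key : ∀ n < N, m.sat (gam n) := by
      intro n hn
      cases n with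
      | zero => exact (holds_dia _ _ _ _).2 ⟨N, Nat.lt_succ_self N, rfl⟩
      | succ n =>
        intro (y : ℕ) _ hy
        have hy' : y + n = N := hy
        have e1 : y - 1 < y := by omega
        have e2 : y - 1 + (n + 1) = N := by omega
        exact (holds_dia _ _ _ _).2 ⟨(y - 1 : ℕ), e1, e2⟩
    have fin : ∀ l : List Fm, (∀ a ∈ l, m.sat a) → ¬ m.sat (l.foldr imp bot) := by
      intro l
      induction l with
      | nil => exact fun _ h => h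
      | cons a l ih =>
        exact fun h k => ih (fun b hb => h b (List.mem_cons_of_mem _ hb))
          (k (h a List.mem_cons_self))
    refine fin l (fun a ha => ?_) (hG m)
    obtain ⟨n, hn, rfl⟩ := hN a ha
    exact key n hn)
  have h4 : imp (box (var 0)) (box (box (var 0))) ∈ Lob :=
    fun m h y r z r' => h z (m.tr _ _ _ r r')
  have hl : imp (box (imp (box (var 0)) (var 0))) (box (var 0)) ∈ Lob := by
    intro m h y
    induction y using m.wf.induction with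
    | _ y ih => exact fun r => h y r fun z r' => ih z r' (m.tr _ _ _ r r')
  have tr : ∀ y z, R x y → R y z → R x z := fun y z r r' =>
    hf _ h4 (fun _ => {u | R x u}) x (fun _ h => h) y r z r'
  obtain ⟨y, r, hy⟩ := (holds_dia _ _ _ _).1 (hx _ ⟨0, rfl⟩)
  refine hf _ hl (fun _ => {u | ¬ (R x u ∧ ∃ n, u ∈ V n)}) x ?_ y r ⟨r, 0, hy⟩
  rintro u _ hu ⟨ru, n, hn⟩
  obtain ⟨z, rz, hz⟩ := (holds_dia _ _ _ _).1 (hx _ ⟨n + 1, rfl⟩ u ru hn)
  exact hu z rz ⟨tr u z ru rz, n + 1, hz⟩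

theorem result : ∃ L : Set Fm, IsNormal L ∧ KripkeCriterion L ∧ ¬ StronglyComplete L :=
  ⟨Lob, normal_Lob, criterion, not_strong⟩

end Pool.Agent.Results.MP_e3277b_lc.NotEquivalent
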